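import Mathlib
import Pool.Agent.Results.MP_f6eb07_gt.PowersMA

/-!
# Martin's axiom and compact scattered spaces of countable spread

A compact Hausdorff space all of whose points but one have countable neighbourhoods, and all of
whose discrete subspaces are countable, is countable under Martin's axiom for `ℵ₁` dense sets (a
special case of the theorem of Szentmiklóssy).
-/

set_option autoImplicit false

open Set Topology Filter
open Pool.Agent.Results.MP_f6eb07_gt.PowersMA

namespace Pool.Agent.U19.HCO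

variable {X : Type} [TopologicalSpace X] [CompactSpace X] [T2Space X]

/-- A closed set which misses `p` is countable. -/
theorem countable_of_closed {p : X} (hloc : ∀ y, y ≠ p → ∃ O : Set X, IsOpen O ∧ y ∈ O ∧ O.Countable)
    {B : Set X} (hB : IsClosed B) (hp : p ∉ B) : B.Countable := by
  have h : ∀ y ∈ B, ∃ O : Set X, O ∈ 𝓝[B] y ∧ O.Countable := by
    intro y hy
    obtain ⟨O, h1, h2, h3⟩ := hloc y (fun h => hp (h ▸ hy))
    exact ⟨O, mem_nhdsWithin_of_mem_nhds (h1.mem_nhds h2), h3⟩
  refine hB.isCompact.induction_on (p := fun S => S.Countable) countable_empty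
    (fun s t hst ht => ht.mono hst) (fun s t hs ht => hs.union ht) ?_
  intro y hy
  obtain ⟨O, h1, h2⟩ := h y hy
  exact ⟨O, h1, h2⟩

/-- An `ω`-closed set with `p` in its closure contains `p`. -/
theorem mem_of_closed {W : Type} [LinearOrder W] [WellFoundedLT W]
    (hc : ∀ a : W, (Iio a).Countable) (hu : ¬ Countable W) {p : X}
    (hloc : ∀ y, y ≠ p → ∃ O : Set X, IsOpen O ∧ y ∈ O ∧ O.Countable)
    (hs : ∀ D : Set X, DiscreteTopology D → D.Countable)
    (E : Set X) (hE : ∀ C ⊆ E, C.Countable → closure C ⊆ E) (hp : p ∈ closure E) : p ∈ E := by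
  by_contra hpE
  have hEu : ¬ E.Countable := fun h => hpE (hE E Subset.rfl h hp)
  have hO : ∀ y : E, ∃ O : Set X, IsOpen O ∧ y.1 ∈ O ∧ O.Countable :=
    fun y => hloc y.1 (fun h => hpE (h ▸ y.2))
  choose O hO1 hO2 hO3 using hO
  obtain ⟨e, he⟩ := rec_seq (W := W) (T := E) hc
    (fun (B : Set E) (t : E) => t.1 ∉ closure (Subtype.val '' B) ∧ ∀ b ∈ B, t.1 ∉ O b) (by
      intro B hB
      have h1 : (closure (Subtype.val '' B)).Countable := by
        refine countable_of_closed hloc isClosed_closure ?_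
        intro h
        refine hpE (hE _ ?_ (hB.image _) h)
        rintro _ ⟨b, _, rfl⟩
        exact b.2
      have h2 : (⋃ b ∈ B, O b).Countable := hB.biUnion fun b _ => hO3 b
      have h3 : (E \ (closure (Subtype.val '' B) ∪ ⋃ b ∈ B, O b)).Nonempty := by
        by_contra hcon
        rw [not_nonempty_iff_eq_empty, diff_eq_empty] at hcon
        exact hEu ((h1.union h2).mono hcon)
      obtain ⟨t, htE, ht⟩ := h3
      refine ⟨⟨t, htE⟩, fun h => ht (Or.inl h), fun b hb h => ht (Or.inr (mem_biUnion hb h))⟩)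
  have hinj : Function.Injective fun i => (e i).1 := by
    intro i j hij
    rcases lt_trichotomy i j with h | h | h
    · exact absurd (subset_closure (show (e j).1 ∈ Subtype.val '' (e '' Iio j) from
        ⟨e i, mem_image_of_mem e h, hij⟩)) (he j).1
    · exact h
    · exact absurd (subset_closure (show (e i).1 ∈ Subtype.val '' (e '' Iio i) from
        ⟨e j, mem_image_of_mem e h, hij.symm⟩)) (he i).1
  have hD : DiscreteTopology (range fun i => (e i).1) := by
    rw [discreteTopology_subtype_iff']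
    rintro _ ⟨i, rfl⟩
    refine ⟨O (e i) \ closure (Subtype.val '' (e '' Iio i)),
      (hO1 _).sdiff isClosed_closure, ?_⟩
    ext z
    simp only [mem_inter_iff, mem_diff, mem_range, mem_singleton_iff]
    constructor
    · rintro ⟨⟨h1, h2⟩, j, rfl⟩
      rcases lt_trichotomy i j with h | h | h
      · exact absurd h1 ((he j).2 (e i) (mem_image_of_mem e h))
      · rw [h]
      · exact absurd (subset_closure (show (e j).1 ∈ Subtype.val '' (e '' Iio i) from
          ⟨e j, mem_image_of_mem e h, rfl⟩)) h2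
    · rintro rfl
      exact ⟨⟨hO2 _, (he i).1⟩, i, rfl⟩
  have h4 := hs _ hD
  apply hu
  have h5 : Countable (range fun i => (e i).1) := h4.to_subtype
  exact (Equiv.ofInjective _ hinj).countable_iff.mpr h5

/-- Finite tuples: a countable subfamily accumulates to `p` in all coordinates. -/
theorem tuples {W : Type} {p : X}
    (hloc : ∀ y, y ≠ p → ∃ O : Set X, IsOpen O ∧ y ∈ O ∧ O.Countable)
    (hCT : ∀ E : Set X, (∀ C ⊆ E, C.Countable → closure C ⊆ E) → p ∈ closure E → p ∈ E) (n : ℕ) :
    ∀ (A : Set W), ¬ A.Countable → ∀ q : W → Fin n → X,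
      (∀ k, InjOn (fun i => q i k) A) →
      ∃ A' ⊆ A, A'.Countable ∧ ∀ G : Set X, IsOpen G → p ∈ G → ∃ i ∈ A', ∀ k, q i k ∈ G := by
  induction n with
  | zero =>
    intro A hA q _
    have hne : A.Nonempty := by
      by_contra h
      rw [not_nonempty_iff_eq_empty] at h
      exact hA (h ▸ countable_empty)
    obtain ⟨a, ha⟩ := hne
    exact ⟨{a}, singleton_subset_iff.2 ha, countable_singleton a,
      fun G _ _ => ⟨a, rfl, fun k => k.elim0⟩⟩
  | succ n ih =>
    intro A hA q hq
    let E : Set X := {z | ∃ A' ⊆ A, A'.Countable ∧ ∀ G : Set X, IsOpen G → p ∈ G →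
      ∀ H : Set X, IsOpen H → z ∈ H → ∃ i ∈ A', (∀ k : Fin n, q i k.castSucc ∈ G) ∧
        q i (Fin.last n) ∈ H}
    have hE : ∀ C ⊆ E, C.Countable → closure C ⊆ E := by
      intro C hC hCc z hz
      have h1 : ∀ c : C, ∃ A' ⊆ A, A'.Countable ∧ ∀ G : Set X, IsOpen G → p ∈ G →
          ∀ H : Set X, IsOpen H → c.1 ∈ H → ∃ i ∈ A', (∀ k : Fin n, q i k.castSucc ∈ G) ∧
            q i (Fin.last n) ∈ H := fun c => hC c.2
      choose A' hA1 hA2 hA3 using h1
      have : Countable C := hCc.to_subtype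
      refine ⟨⋃ c, A' c, iUnion_subset hA1, countable_iUnion hA2, ?_⟩
      intro G hG hpG H hH hzH
      obtain ⟨c, hcH, hcC⟩ := mem_closure_iff.1 hz H hH hzH
      obtain ⟨i, hi, h2, h3⟩ := hA3 ⟨c, hcC⟩ G hG hpG H hH hcH
      exact ⟨i, mem_iUnion.2 ⟨_, hi⟩, h2, h3⟩
    have hpE : p ∈ closure E := by
      rw [mem_closure_iff_nhds]
      intro N hN
      obtain ⟨K, hK, hKc, hKN⟩ := exists_mem_nhds_isClosed_subset hN
      obtain ⟨G, hGK, hG, hpG⟩ := mem_nhds_iff.1 hK
      have hAG : ¬ {i ∈ A | q i (Fin.last n) ∈ G}.Countable := by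
        intro h
        apply hA
        have h1 : {i ∈ A | q i (Fin.last n) ∉ G}.Countable := by
          have h2 : ((fun i => q i (Fin.last n)) '' {i ∈ A | q i (Fin.last n) ∉ G}).Countable := by
            refine (countable_of_closed hloc hG.isClosed_compl (fun h => h hpG)).mono ?_
            rintro _ ⟨i, hi, rfl⟩
            exact hi.2
          exact countable_of_injective_of_countable_image
            ((hq (Fin.last n)).mono fun i hi => hi.1) h2
        refine (h.union h1).mono fun i hi => ?_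
        by_cases h2 : q i (Fin.last n) ∈ G
        · exact Or.inl ⟨hi, h2⟩
        · exact Or.inr ⟨hi, h2⟩
      obtain ⟨A', hA'1, hA'2, hA'3⟩ := ih _ hAG (fun i k => q i k.castSucc)
        (fun k => (hq k.castSucc).mono fun i hi => hi.1)
      -- a cluster point of the last coordinates
      let F : Filter W := ⨅ G' : {G' : Set X // IsOpen G' ∧ p ∈ G'},
        𝓟 {i ∈ A' | ∀ k : Fin n, q i k.castSucc ∈ G'.1}
      have hdir : Directed (· ≥ ·) fun G' : {G' : Set X // IsOpen G' ∧ p ∈ G'} =>
          {i ∈ A' | ∀ k : Fin n, q i k.castSucc ∈ G'.1} := by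
        rintro ⟨G1, h11, h12⟩ ⟨G2, h21, h22⟩
        refine ⟨⟨G1 ∩ G2, h11.inter h21, h12, h22⟩, ?_, ?_⟩
        · rintro i ⟨h1, h2⟩
          exact ⟨h1, fun k => (h2 k).1⟩
        · rintro i ⟨h1, h2⟩
          exact ⟨h1, fun k => (h2 k).2⟩
      have : Nonempty {G' : Set X // IsOpen G' ∧ p ∈ G'} := ⟨⟨univ, isOpen_univ, mem_univ _⟩⟩
      have hFne : F.NeBot := by
        refine iInf_neBot_of_directed' ?_ ?_
        · intro a b
          obtain ⟨c, h1, h2⟩ := hdir a b
          exact ⟨c, principal_mono.2 h1, principal_mono.2 h2⟩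
        · rintro ⟨G', h1, h2⟩
          rw [principal_neBot_iff]
          obtain ⟨i, h3, h4⟩ := hA'3 G' h1 h2
          exact ⟨i, h3, h4⟩
      obtain ⟨z, hz⟩ := exists_clusterPt_of_compactSpace (Filter.map (fun i => q i (Fin.last n)) F)
      have hzF : ∀ G' : Set X, IsOpen G' → p ∈ G' → ∀ H : Set X, IsOpen H → z ∈ H →
          ∃ i ∈ A', (∀ k : Fin n, q i k.castSucc ∈ G') ∧ q i (Fin.last n) ∈ H := by
        intro G' h1 h2 H h3 h4
        have h5 : {i ∈ A' | ∀ k : Fin n, q i k.castSucc ∈ G'} ∈ F :=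
          mem_iInf_of_mem ⟨G', h1, h2⟩ (mem_principal_self _)
        have h6 := clusterPt_iff_nonempty.1 hz (h3.mem_nhds h4) (image_mem_map h5)
        obtain ⟨_, h7, i, h8, rfl⟩ := h6
        exact ⟨i, h8.1, h8.2, h7⟩
      have hzE : z ∈ E := ⟨A', hA'1.trans fun i hi => hi.1, hA'2, hzF⟩
      have hzK : z ∈ K := by
        by_contra h
        obtain ⟨i, h1, _, h3⟩ := hzF univ isOpen_univ (mem_univ _) Kᶜ hKc.isOpen_compl h
        exact h3 (hGK (hA'1 h1).2)
      exact ⟨z, hKN hzK, hzE⟩
    obtain ⟨A', h1, h2, h3⟩ := hCT E hE hpE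
    refine ⟨A', h1, h2, fun G hG hpG => ?_⟩
    obtain ⟨i, h4, h5, h6⟩ := h3 G hG hpG G hG hpG
    refine ⟨i, h4, fun k => ?_⟩
    rcases Fin.eq_castSucc_or_eq_last k with ⟨j, rfl⟩ | rfl
    · exact h5 j
    · exact h6

/-- **Martin's axiom**: one point without countable neighbourhoods. -/
theorem countable_of_point (hMA : MartinAxiomAlephOne) {p : X}
    (hloc : ∀ y, y ≠ p → ∃ O : Set X, IsOpen O ∧ y ∈ O ∧ O.Countable)
    (hs : ∀ D : Set X, DiscreteTopology D → D.Countable) : (univ : Set X).Countable := by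
  classical
  by_contra hX
  obtain ⟨W, _, _, hW, hc, hu⟩ := exists_omega_one
  have hO : ∀ y : {y : X // y ≠ p}, ∃ O : Set X, IsOpen O ∧ y.1 ∈ O ∧ O.Countable ∧
      p ∉ closure O := by
    rintro ⟨y, hy⟩
    obtain ⟨O, h1, h2, h3⟩ := hloc y hy
    obtain ⟨U, V, hU, hV, hyU, hpV, hUV⟩ := t2_separation hy
    refine ⟨O ∩ U, h1.inter hU, ⟨h2, hyU⟩, h3.mono inter_subset_left, ?_⟩
    intro h
    obtain ⟨z, hz1, hz2⟩ := mem_closure_iff.1 h V hV hpV
    exact disjoint_left.1 hUV hz2.2 hz1
  choose O hO1 hO2 hO3 hO4 using hO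
  obtain ⟨x, hx⟩ := rec_seq (W := W) (T := {y : X // y ≠ p}) hc
    (fun B t => ∀ b ∈ B, t.1 ∉ O b) (by
      intro B hB
      have h2 : (⋃ b ∈ B, O b).Countable := hB.biUnion fun b _ => hO3 b
      have h3 : ((univ : Set X) \ ((⋃ b ∈ B, O b) ∪ {p})).Nonempty := by
        by_contra hcon
        rw [not_nonempty_iff_eq_empty, diff_eq_empty] at hcon
        exact hX ((h2.union (countable_singleton p)).mono hcon)
      obtain ⟨t, -, ht⟩ := h3
      exact ⟨⟨t, fun h => ht (Or.inr h)⟩, fun b hb h => ht (Or.inl (mem_biUnion hb h))⟩)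
  have hxlt : ∀ i j, i < j → (x j).1 ∉ O (x i) := fun i j h => hx j (x i) (mem_image_of_mem x h)
  have hinj : Function.Injective fun i => (x i).1 := by
    intro i j hij
    have hij' : (x i).1 = (x j).1 := hij
    rcases lt_trichotomy i j with h | h | h
    · exact absurd (hij' ▸ hO2 (x i)) (hxlt i j h)
    · exact h
    · exact absurd (hij'.symm ▸ hO2 (x j)) (hxlt j i h)
  have hblk : NoBlocks fun η ξ => (x η).1 ∈ O (x ξ) := by
    intro E hne hlt hbad
    -- blocks of constant size
    obtain ⟨n, hn⟩ : ∃ n, ¬ {i : W | (E i).card = n}.Countable := by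
      by_contra hcon
      push Not at hcon
      apply hu
      rw [← Set.countable_univ_iff]
      refine (countable_iUnion hcon).mono fun i _ => mem_iUnion.2 ⟨(E i).card, rfl⟩
    let q : W → Fin n → X := fun i k =>
      if h : (E i).card = n then (x ((E i).orderEmbOfFin h k)).1 else p
    have hqE : ∀ i (h : (E i).card = n) k, q i k = (x ((E i).orderEmbOfFin h k)).1 := by
      intro i h k
      simp only [q, h, dite_true]
    obtain ⟨A', hA1, hA2, hA3⟩ := tuples hloc (mem_of_closed hc hu hloc hs) n _ hn q (by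
      intro k i hi j hj hij
      simp only at hij
      rw [hqE i hi, hqE j hj] at hij
      have h1 := hinj hij
      by_contra hne'
      rcases lt_or_gt_of_ne hne' with h | h
      · exact absurd (hlt i j h _ (Finset.orderEmbOfFin_mem _ hi k) _
          (Finset.orderEmbOfFin_mem _ hj k)) (by rw [h1]; exact lt_irrefl _)
      · exact absurd (hlt j i h _ (Finset.orderEmbOfFin_mem _ hj k) _
          (Finset.orderEmbOfFin_mem _ hi k)) (by rw [h1]; exact lt_irrefl _))
    obtain ⟨j, hj⟩ := exists_bound hc hu hA2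
    obtain ⟨i, hi, hik⟩ := hA3 (⋃ ξ ∈ E j, closure (O (x ξ)))ᶜ
      ((E j).finite_toSet.isClosed_biUnion fun ξ _ => isClosed_closure).isOpen_compl (by
        simp only [mem_compl_iff, mem_iUnion, not_exists]
        intro ξ _
        exact hO4 (x ξ))
    obtain ⟨η, hη, ξ, hξ, hb⟩ := hbad i j (hj i hi)
    have hcard : (E i).card = n := hA1 hi
    obtain ⟨k, rfl⟩ : ∃ k, (E i).orderEmbOfFin hcard k = η := by
      have h1 : η ∈ Set.range ((E i).orderEmbOfFin hcard) := by
        rw [Finset.range_orderEmbOfFin]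
        exact hη
      exact h1
    have h2 := hik k
    rw [hqE i hcard k] at h2
    exact h2 (mem_biUnion (show ξ ∈ (E j : Set W) from hξ) (subset_closure hb))
  obtain ⟨S, hSu, hS⟩ := exists_free hMA hW hc hu hblk
  have hD : DiscreteTopology ((fun i => (x i).1) '' S) := by
    rw [discreteTopology_subtype_iff']
    rintro _ ⟨i, hi, rfl⟩
    refine ⟨O (x i), hO1 _, ?_⟩
    ext z
    simp only [mem_inter_iff, mem_image, mem_singleton_iff]
    constructor
    · rintro ⟨h1, j, hj, rfl⟩
      rcases lt_trichotomy i j with h | h | h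
      · exact absurd h1 (hxlt i j h)
      · rw [h]
      · exact absurd h1 (hS j hj i hi h)
    · rintro rfl
      exact ⟨hO2 _, i, hi, rfl⟩
  exact hSu (countable_of_injective_of_countable_image hinj.injOn (hs _ hD))

end Pool.Agent.U19.HCO
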