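import Mathlib
import Pool.Agent.Results.MP_f6eb07_gt.PowersMA

/-!
# Martin's axiom: uncountable free sets which meet further dense sets

The theorem `exists_free` of the starting file `PowersMA`, with `ℵ₁` further dense sets of finite
free sets and with a prescribed uncountable set.
-/

set_option autoImplicit false

open Set Cardinal
open Pool.Agent.Results.MP_f6eb07_gt.PowersMA

namespace Pool.Agent.U19.HCO

variable {W : Type} [LinearOrder W] [WellFoundedLT W]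

theorem exists_free' (hMA : MartinAxiomAlephOne) (hW : #W = ℵ₁)
    (hc : ∀ a : W, (Iio a).Countable) (hu : ¬ Countable W)
    {Bad : W → W → Prop} (hblk : NoBlocks Bad) (V : Set W) (hV : ¬ V.Countable)
    (Ds : W → Set (Finset W))
    (hDs : ∀ (α : W) (E : Finset W), Free Bad E → ∃ E', E ⊆ E' ∧ Free Bad E' ∧ E' ∈ Ds α) :
    ∃ S : Set W, ¬ (S ∩ V).Countable ∧ (∀ η ∈ S, ∀ ξ ∈ S, η < ξ → ¬ Bad η ξ) ∧
      ∀ α, ∃ E ∈ Ds α, ∀ ξ ∈ E, ξ ∈ S := by
  classical
  -- the poset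
  let P : Type := {E : (Finset W)ᵒᵈ // Free Bad (OrderDual.ofDual E)}
  have hccc : CCC P := by
    intro 𝒜 h𝒜
    let cv : P → Finset W := fun q => OrderDual.ofDual q.1
    have hcv : Function.Injective cv := fun a b h => Subtype.ext (OrderDual.ofDual.injective h)
    have h1 : ∀ n : ℕ, {E ∈ cv '' 𝒜 | E.card = n}.Countable := by
      intro n
      apply no_antichain hc hu hblk n
      · intro E hE
        exact hE.2
      · rintro _ ⟨⟨q, _, rfl⟩, _⟩
        exact q.2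
      · rintro _ ⟨⟨q, hq, rfl⟩, _⟩ _ ⟨⟨q', hq', rfl⟩, _⟩ hne hOK
        have hne' : q ≠ q' := by
          rintro rfl
          exact hne rfl
        apply h𝒜 q hq q' hq' hne'
        refine ⟨⟨OrderDual.toDual (cv q ∪ cv q'), hOK⟩, ?_, ?_⟩
        · exact Finset.subset_union_left
        · exact Finset.subset_union_right
    have h2 : (cv '' 𝒜).Countable := by
      refine (Set.countable_iUnion h1).mono ?_
      intro E hE
      exact mem_iUnion.mpr ⟨E.card, hE, rfl⟩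
    exact Set.countable_of_injective_of_countable_image hcv.injOn h2
  have hmem : ∀ q r : P, q ≤ r → ∀ ξ ∈ OrderDual.ofDual r.1, ξ ∈ OrderDual.ofDual q.1 :=
    fun q r h => h
  -- elements of `V` above a given bound
  have hVb : ∀ b : W, ∃ v ∈ V, b < v := by
    intro b
    by_contra hno
    push Not at hno
    apply hV
    refine ((hc b).insert b).mono fun v hv => ?_
    rw [Iio_insert]
    exact hno v hv
  -- a condition forcing the generic to be unbounded in `V`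
  have hp0 : ∃ p0 : P, ∀ α : W, ∀ q ≤ p0, ∃ r ≤ q, ∃ ξ ∈ OrderDual.ofDual r.1, ξ ∈ V ∧ α < ξ := by
    by_contra hno
    push Not at hno
    choose a Q hQ1 hQ2 using hno
    let sg : W → P := fun ξ => ⟨OrderDual.toDual {ξ}, by
      intro η hη ξ' hξ' hlt
      have h1 : η = ξ := by simpa using hη
      have h2 : ξ' = ξ := by simpa using hξ'
      rw [h1, h2] at hlt
      exact absurd hlt (lt_irrefl _)⟩
    have hsg : ∀ ξ, ξ ∈ OrderDual.ofDual (Q (sg ξ)).1 := fun ξ =>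
      hmem _ _ (hQ1 (sg ξ)) ξ (Finset.mem_singleton_self ξ)
    obtain ⟨t, ht⟩ := rec_seq (W := W) hc
      (fun (B : Set W) (t : W) => t ∈ V ∧ ∀ η ∈ B, a (sg η) < t) (by
        intro B hB
        obtain ⟨b, hb⟩ := exists_bound hc hu (hB.image (fun η => a (sg η)))
        obtain ⟨v, hv, hbv⟩ := hVb b
        exact ⟨v, hv, fun η hη => (hb _ (mem_image_of_mem _ hη)).trans hbv⟩)
    have ht' : ∀ j i, j < i → a (sg (t j)) < t i := fun j i hji =>
      (ht i).2 (t j) (mem_image_of_mem t hji)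
    have hinc : ∀ j i, j < i → ¬ ∃ r : P, r ≤ Q (sg (t j)) ∧ r ≤ Q (sg (t i)) := by
      rintro j i hji ⟨r, hr1, hr2⟩
      exact hQ2 (sg (t j)) r hr1 (t i) (hmem _ _ hr2 _ (hsg (t i))) (ht i).1 |>.not_gt (ht' j i hji)
    have hinj : Function.Injective (fun i => Q (sg (t i))) := by
      intro i j hij
      have hij' : Q (sg (t i)) = Q (sg (t j)) := hij
      rcases lt_trichotomy i j with h | h | h
      · exact absurd ⟨Q (sg (t i)), le_rfl, hij'.le⟩ (hinc i j h)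
      · exact h
      · exact absurd ⟨Q (sg (t i)), hij'.le, le_rfl⟩ (hinc j i h)
    have hcount := hccc (range (fun i => Q (sg (t i)))) (by
      rintro _ ⟨i, rfl⟩ _ ⟨j, rfl⟩ hne
      have hij : i ≠ j := by
        rintro rfl
        exact hne rfl
      rcases lt_or_gt_of_ne hij with h | h
      · exact hinc i j h
      · rintro ⟨r, hr1, hr2⟩
        exact hinc j i h ⟨r, hr2, hr1⟩)
    apply hu
    have h1 : Countable (range (fun i => Q (sg (t i)))) := hcount.to_subtype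
    exact (Equiv.ofInjective _ hinj).countable_iff.mpr h1
  obtain ⟨p0, hp0⟩ := hp0
  let P' : Type := {q : P // q ≤ p0}
  have hne' : Nonempty P' := ⟨⟨p0, le_rfl⟩⟩
  have hccc' : CCC P' := by
    intro 𝒜 h𝒜
    have h1 := hccc (Subtype.val '' 𝒜) (by
      rintro _ ⟨q, hq, rfl⟩ _ ⟨q', hq', rfl⟩ hne ⟨r, hr1, hr2⟩
      refine h𝒜 q hq q' hq' (fun h => hne (by rw [h])) ⟨⟨r, hr1.trans q.2⟩, hr1, hr2⟩)
    exact Set.countable_of_injective_of_countable_image Subtype.val_injective.injOn h1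
  let Dn : W → Set P' := fun α => {q | (∃ ξ ∈ OrderDual.ofDual q.1.1, ξ ∈ V ∧ α < ξ) ∧
    ∃ E ∈ Ds α, ∀ ξ ∈ E, ξ ∈ OrderDual.ofDual q.1.1}
  obtain ⟨G, _, hGup, hGdir, hGD⟩ := hMA P' hccc' (range Dn)
    (Cardinal.mk_range_le.trans hW.le) (by
      rintro _ ⟨α, rfl⟩ q
      obtain ⟨r, hr, ξ, hξ, hα⟩ := hp0 α q.1 q.2
      obtain ⟨E', h1, h2, h3⟩ := hDs α (OrderDual.ofDual r.1) r.2
      have hle : (⟨OrderDual.toDual E', h2⟩ : P) ≤ r := h1
      exact ⟨⟨⟨OrderDual.toDual E', h2⟩, hle.trans (hr.trans q.2)⟩,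
        ⟨⟨ξ, h1 hξ, hα⟩, E', h3, fun ξ hξ => hξ⟩, hle.trans hr⟩)
  refine ⟨{ξ | ∃ q ∈ G, ξ ∈ OrderDual.ofDual q.1.1}, ?_, ?_, ?_⟩
  · intro hS
    obtain ⟨b, hb⟩ := exists_bound hc hu hS
    obtain ⟨q, hqG, ⟨ξ, hξ, hξV, hbξ⟩, _⟩ := hGD (Dn b) (mem_range_self b)
    exact absurd (hb ξ ⟨⟨q, hqG, hξ⟩, hξV⟩) (lt_asymm hbξ)
  · rintro η ⟨q1, hq1, hη⟩ ξ ⟨q2, hq2, hξ⟩ hlt
    obtain ⟨r, _, hr1, hr2⟩ := hGdir q1 hq1 q2 hq2
    exact r.1.2 η (hmem _ _ hr1 η hη) ξ (hmem _ _ hr2 ξ hξ) hlt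
  · intro α
    obtain ⟨q, hqG, _, E, hE, hEq⟩ := hGD (Dn α) (mem_range_self α)
    exact ⟨E, hE, fun ξ hξ => ⟨q, hqG, hEq ξ hξ⟩⟩

end Pool.Agent.U19.HCO
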