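import Mathlib
import Pool.Agent.U19.HCO.Core
import Pool.Agent.U19.HCO.MA

/-!
# Martin's axiom and closed discrete sets in locally countable spaces

Let `X` be a compact Hausdorff space of size at most `ℵ₁`, all of whose points other than `p` have
countable neighbourhoods, and let `X` be countably tight at `p`. Under Martin's axiom for `ℵ₁`
dense sets every uncountable set contains an uncountable set without accumulation points other than
`p` (a special case of a theorem of Balogh).
-/

set_option autoImplicit false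

open Set Topology Filter Cardinal
open Pool.Agent.Results.MP_f6eb07_gt.PowersMA

namespace Pool.Agent.U19.HCO

variable {X : Type} [TopologicalSpace X] [CompactSpace X] [T2Space X]

/-- The points and the promises. -/
abbrev Tp (p : X) (D : Set X) : Type := D ⊕ ({y : X // y ≠ p} × Finset X)

/-- A point `x` breaks the promise `(y, t)`. -/
def Conf (p : X) (D : Set X) (O : {y : X // y ≠ p} → Set X) : Tp p D → Tp p D → Prop
  | Sum.inl x, Sum.inr b => x.1 ∈ O b.1 ∧ x.1 ∉ b.2
  | Sum.inr b, Sum.inl x => x.1 ∈ O b.1 ∧ x.1 ∉ b.2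
  | Sum.inl _, Sum.inl _ => False
  | Sum.inr _, Sum.inr _ => False

/-- The point. -/
def val (p : X) (D : Set X) : Tp p D → X
  | Sum.inl x => x.1
  | Sum.inr _ => p

/-- The neighbourhood of the promise. -/
def nb (p : X) (D : Set X) (O : {y : X // y ≠ p} → Set X) : Tp p D → Set X
  | Sum.inl _ => ∅
  | Sum.inr b => O b.1

theorem exists_closed_discrete (hMA : MartinAxiomAlephOne) {p : X}
    (hloc : ∀ y, y ≠ p → ∃ O : Set X, IsOpen O ∧ y ∈ O ∧ O.Countable)
    (hCT : ∀ E : Set X, (∀ C ⊆ E, C.Countable → closure C ⊆ E) → p ∈ closure E → p ∈ E)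
    (hX : #X ≤ ℵ₁) (D : Set X) (hD : ¬ D.Countable) :
    ∃ S ⊆ D, ¬ S.Countable ∧ ∀ y, y ≠ p → ∃ O : Set X, IsOpen O ∧ y ∈ O ∧ (O ∩ S).Finite := by
  classical
  obtain ⟨W, _, _, hW, hc, hu⟩ := exists_omega_one
  have hO : ∀ y : {y : X // y ≠ p}, ∃ O : Set X, IsOpen O ∧ y.1 ∈ O ∧ O.Countable ∧
      p ∉ closure O := by
    rintro ⟨y, hy⟩
    obtain ⟨O, h1, h2, h3⟩ := hloc y hy
    obtain ⟨U, V, hU, hV, hyU, hpV, hUV⟩ := t2_separation hy
    refine ⟨O ∩ U, h1.inter hU, ⟨h2, hyU⟩, h3.mono inter_subset_left, ?_⟩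
    intro h
    obtain ⟨z, hz1, hz2⟩ := mem_closure_iff.1 h V hV hpV
    exact disjoint_left.1 hUV hz2.2 hz1
  choose O hO1 hO2 hO3 hO4 using hO
  -- the index set
  have hcard : #(Tp p D) = ℵ₁ := by
    have hXinf : Infinite X := by
      by_contra h
      rw [not_infinite_iff_finite] at h
      exact hD (Set.to_countable D)
    apply le_antisymm
    · have h1 : #D ≤ ℵ₁ := (mk_set_le D).trans hX
      have h2 : #{y : X // y ≠ p} ≤ ℵ₁ := (mk_subtype_le _).trans hX
      have h3 : #(Finset X) ≤ ℵ₁ := by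
        rw [mk_finset_of_infinite]
        exact hX
      have h4 : (ℵ₀ : Cardinal.{0}) ≤ ℵ₁ := aleph0_le_aleph 1
      rw [mk_sum, mk_prod, lift_id, lift_id, lift_id, lift_id]
      exact (add_le_add h1 (mul_le_mul' h2 h3)).trans
        (by rw [mul_eq_self h4, add_eq_self h4])
    · have h1 : ℵ₁ ≤ #D := by
        rw [← succ_aleph0, Order.succ_le_iff, ← not_le, le_aleph0_iff_set_countable]
        exact hD
      exact h1.trans (mk_le_of_injective Sum.inl_injective)
  obtain ⟨τ⟩ := Cardinal.eq.1 (hW.trans hcard.symm)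
  have hvinj : ∀ η ξ : W, (∃ x, τ η = Sum.inl x) → (∃ x, τ ξ = Sum.inl x) →
      val p D (τ η) = val p D (τ ξ) → η = ξ := by
    rintro η ξ ⟨x, hx⟩ ⟨y, hy⟩ h
    rw [hx, hy] at h
    have h1 : x = y := Subtype.ext h
    exact τ.injective (by rw [hx, hy, h1])
  have hblk : NoBlocks fun η ξ => Conf p D O (τ η) (τ ξ) := by
    intro E hne hlt hbad
    let Xf : W → Finset W := fun i => (E i).filter fun η => ∃ x, τ η = Sum.inl x
    have hXf : ∀ i η, η ∈ Xf i ↔ η ∈ E i ∧ ∃ x, τ η = Sum.inl x := fun i η => Finset.mem_filter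
    obtain ⟨n, hn⟩ : ∃ n, ¬ {i : W | (Xf i).card = n}.Countable := by
      by_contra hcon
      push Not at hcon
      apply hu
      rw [← Set.countable_univ_iff]
      refine (countable_iUnion hcon).mono fun i _ => mem_iUnion.2 ⟨(Xf i).card, rfl⟩
    let q : W → Fin n → X := fun i k =>
      if h : (Xf i).card = n then val p D (τ ((Xf i).orderEmbOfFin h k)) else p
    have hqE : ∀ i (h : (Xf i).card = n) k, q i k = val p D (τ ((Xf i).orderEmbOfFin h k)) := by
      intro i h k
      simp only [q, h, dite_true]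
    obtain ⟨A', hA1, hA2, hA3⟩ := tuples hloc hCT n _ hn q (by
      intro k i hi j hj hij
      simp only at hij
      rw [hqE i hi, hqE j hj] at hij
      have hmi := (hXf _ _).1 (Finset.orderEmbOfFin_mem (Xf i) hi k)
      have hmj := (hXf _ _).1 (Finset.orderEmbOfFin_mem (Xf j) hj k)
      have h1 := hvinj _ _ hmi.2 hmj.2 hij
      by_contra hne'
      rcases lt_or_gt_of_ne hne' with h | h
      · exact absurd (hlt i j h _ hmi.1 _ hmj.1) (by rw [h1]; exact lt_irrefl _)
      · exact absurd (hlt j i h _ hmj.1 _ hmi.1) (by rw [h1]; exact lt_irrefl _))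
    obtain ⟨b, hb⟩ := exists_bound hc hu hA2
    -- the neighbourhoods of the earlier promises
    let R : Set X := ⋃ i ∈ A', ⋃ ξ ∈ E i, nb p D O (τ ξ)
    have hnbc : ∀ z : Tp p D, (nb p D O z).Countable := by
      rintro (x | c)
      · exact countable_empty
      · exact hO3 c.1
    have hR : R.Countable :=
      hA2.biUnion fun i _ => (E i).countable_toSet.biUnion fun ξ _ => hnbc _
    let Z : Set W := {η | (∃ x, τ η = Sum.inl x) ∧ val p D (τ η) ∈ R}
    have hZ : Z.Countable := by
      have h1 : ((fun η => val p D (τ η)) '' Z).Countable := by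
        refine hR.mono ?_
        rintro _ ⟨η, hη, rfl⟩
        exact hη.2
      exact countable_of_injective_of_countable_image
        (fun η hη ξ hξ h => hvinj η ξ hη.1 hξ.1 h) h1
    have hZj : (⋃ η ∈ Z, {j : W | η ∈ E j}).Countable := by
      refine hZ.biUnion fun η _ => Set.Subsingleton.countable ?_
      intro i hi j hj
      by_contra hne'
      rcases lt_or_gt_of_ne hne' with h | h
      · exact lt_irrefl _ (hlt i j h _ hi _ hj)
      · exact lt_irrefl _ (hlt j i h _ hj _ hi)
    obtain ⟨j, hj1, hj2⟩ : ({i : W | (Xf i).card = n} \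
        (insert b (Iio b) ∪ ⋃ η ∈ Z, {j : W | η ∈ E j})).Nonempty := by
      by_contra hcon
      rw [not_nonempty_iff_eq_empty, diff_eq_empty] at hcon
      exact hn ((((hc b).insert b).union hZj).mono hcon)
    have hbj : b < j := by
      by_contra h
      apply hj2
      left
      rw [Iio_insert]
      exact not_lt.1 h
    obtain ⟨i, hi, hik⟩ := hA3 (⋃ ξ ∈ E j, closure (nb p D O (τ ξ)))ᶜ
      ((E j).finite_toSet.isClosed_biUnion fun ξ _ => isClosed_closure).isOpen_compl (by
        simp only [mem_compl_iff, mem_iUnion, not_exists]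
        intro ξ _
        rcases τ ξ with x | c
        · simp [nb]
        · exact hO4 c.1)
    obtain ⟨η, hη, ξ, hξ, hconf⟩ := hbad i j ((hb i hi).trans hbj)
    rcases hη' : τ η with x | c
    · rcases hξ' : τ ξ with x' | c'
      · rw [hη', hξ'] at hconf
        exact hconf
      · rw [hη', hξ'] at hconf
        have hcard : (Xf i).card = n := hA1 hi
        obtain ⟨k, hk⟩ : ∃ k, (Xf i).orderEmbOfFin hcard k = η := by
          have h1 : η ∈ Set.range ((Xf i).orderEmbOfFin hcard) := by
            rw [Finset.range_orderEmbOfFin]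
            exact (hXf i η).2 ⟨hη, x, hη'⟩
          exact h1
        have h2 := hik k
        rw [hqE i hcard k, hk, hη'] at h2
        refine h2 (mem_biUnion (show ξ ∈ (E j : Set W) from hξ) (subset_closure ?_))
        rw [hξ']
        exact hconf.1
    · rcases hξ' : τ ξ with x' | c'
      · rw [hη', hξ'] at hconf
        apply hj2
        right
        refine mem_biUnion (show ξ ∈ Z from ⟨⟨x', hξ'⟩, ?_⟩) hξ
        refine mem_biUnion hi (mem_biUnion (show η ∈ (E i : Set W) from hη) ?_)
        rw [hξ', hη']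
        exact hconf.1
      · rw [hη', hξ'] at hconf
        exact hconf
  let V : Set W := {η | ∃ x, τ η = Sum.inl x}
  have hV : ¬ V.Countable := by
    intro h
    apply hD
    refine (h.image fun η => val p D (τ η)).mono fun x hx => ?_
    refine ⟨τ.symm (Sum.inl ⟨x, hx⟩), ⟨⟨x, hx⟩, τ.apply_symm_apply _⟩, ?_⟩
    simp only [Equiv.apply_symm_apply]
    rfl
  let Ds : W → Set (Finset W) := fun α => {E | ∀ b, τ α = Sum.inr b →
    ∃ ξ ∈ E, ∃ t : Finset X, τ ξ = Sum.inr (b.1, t)}
  obtain ⟨S, hS1, hS2, hS3⟩ := exists_free' hMA hW hc hu hblk V hV Ds (by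
    intro α E hE
    rcases hα : τ α with x | b
    · refine ⟨E, subset_rfl, hE, ?_⟩
      intro b hb
      rw [hα] at hb
      exact absurd hb (by simp)
    · let t : Finset X := E.image fun η => val p D (τ η)
      let ξ : W := τ.symm (Sum.inr (b.1, t))
      have hξ : τ ξ = Sum.inr (b.1, t) := τ.apply_symm_apply _
      have hno : ∀ η ∈ E, ¬ Conf p D O (τ η) (τ ξ) ∧ ¬ Conf p D O (τ ξ) (τ η) := by
        intro η hη
        rcases hη' : τ η with x | c
        · rw [hξ]
          have ht : x.1 ∈ t := Finset.mem_image.2 ⟨η, hη, by rw [hη']; rfl⟩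
          exact ⟨fun h => h.2 ht, fun h => h.2 ht⟩
        · rw [hξ]
          exact ⟨fun h => h, fun h => h⟩
      refine ⟨insert ξ E, Finset.subset_insert _ _, ?_, ?_⟩
      · intro η hη ζ hζ hlt
        rcases Finset.mem_insert.1 hη with rfl | h1
        · rcases Finset.mem_insert.1 hζ with rfl | h2
          · exact absurd hlt (lt_irrefl _)
          · exact (hno ζ h2).2
        · rcases Finset.mem_insert.1 hζ with rfl | h2
          · exact (hno η h1).1
          · exact hE η h1 ζ h2 hlt
      · intro b' hb'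
        rw [hα] at hb'
        obtain rfl := Sum.inr_injective hb'
        exact ⟨ξ, Finset.mem_insert_self _ _, t, hξ⟩)
  refine ⟨(fun η => val p D (τ η)) '' (S ∩ V), ?_, ?_, ?_⟩
  · rintro _ ⟨η, ⟨_, x, hx⟩, rfl⟩
    simp only [hx]
    exact x.2
  · intro h
    exact hS1 (countable_of_injective_of_countable_image
      (fun η hη ξ hξ h => hvinj η ξ hη.2 hξ.2 h) h)
  · intro y hy
    refine ⟨O ⟨y, hy⟩, hO1 _, hO2 ⟨y, hy⟩, ?_⟩
    obtain ⟨E, hE1, hE2⟩ := hS3 (τ.symm (Sum.inr (⟨y, hy⟩, ∅)))
    obtain ⟨ξ, hξE, t, hξ⟩ := hE1 (⟨y, hy⟩, ∅) (τ.apply_symm_apply _)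
    refine t.finite_toSet.subset ?_
    rintro _ ⟨hxO, η, ⟨hηS, x, hx⟩, rfl⟩
    simp only at hxO ⊢
    rw [hx] at hxO ⊢
    have hξS := hE2 ξ hξE
    have hne : η ≠ ξ := by
      rintro rfl
      rw [hx] at hξ
      exact absurd hξ (by simp)
    by_contra hxt
    rcases lt_or_gt_of_ne hne with h | h
    · apply hS2 η hηS ξ hξS h
      rw [hx, hξ]
      exact ⟨hxO, hxt⟩
    · apply hS2 ξ hξS η hηS h
      rw [hx, hξ]
      exact ⟨hxO, hxt⟩

end Pool.Agent.U19.HCO
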