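import Mathlib
import Pool.Agent.U19.HCO.Balogh

/-!
# Hereditarily c.o. spaces under Martin's axiom
-/

set_option autoImplicit false

open Set Topology Filter Cardinal
open Pool.Agent.Results.MP_f6eb07_gt.PowersMA

namespace Pool.Agent.U19.HCO

/-- An infinite (compact Hausdorff) space is a c.o. space if every closed subspace is homeomorphic to
a clopen subspace. -/
def IsCO (X : Type) [TopologicalSpace X] : Prop :=
  Infinite X ∧ ∀ F : Set X, IsClosed F → ∃ U : Set X, IsClopen U ∧ Nonempty (F ≃ₜ U)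

/-- Every infinite closed subspace is a c.o. space. -/
def HereditarilyCO (X : Type) [TopologicalSpace X] : Prop :=
  ∀ F : Set X, IsClosed F → Infinite F → IsCO F

/-- Points of `F` which are isolated in `F`. -/
def isol {X : Type} [TopologicalSpace X] (F : Set X) : Set X :=
  {x | x ∈ F ∧ ∃ V : Set X, IsOpen V ∧ V ∩ F = {x}}

variable {X : Type} [TopologicalSpace X]

theorem sets (h : HereditarilyCO X) {F K : Set X} (hF : IsClosed F) (hFi : F.Infinite)
    (hK : IsClosed K) (hKF : K ⊆ F) :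
    ∃ U ⊆ F, IsClosed U ∧ (∃ V, IsOpen V ∧ U = F ∩ V) ∧ Nonempty (K ≃ₜ U) := by
  obtain ⟨-, h1⟩ := h F hF hFi.to_subtype
  obtain ⟨U', hU', ⟨e⟩⟩ := h1 (Subtype.val ⁻¹' K) (hK.preimage continuous_subtype_val)
  obtain ⟨V, hV, hVU⟩ := isOpen_induced_iff.1 hU'.isOpen
  refine ⟨Subtype.val '' U', ?_, hF.isClosedEmbedding_subtypeVal.isClosedMap _ hU'.isClosed,
    ⟨V, hV, ?_⟩, ⟨?_⟩⟩
  · rintro _ ⟨u, _, rfl⟩
    exact u.2
  · rw [← hVU, Subtype.image_preimage_coe]
  · have e1 : (Subtype.val ⁻¹' K : Set F) ≃ₜ (Subtype.val '' (Subtype.val ⁻¹' K : Set F) : Set X) :=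
      IsEmbedding.subtypeVal.homeomorphImage _
    have e2 : U' ≃ₜ (Subtype.val '' U' : Set X) := IsEmbedding.subtypeVal.homeomorphImage _
    have h2 : (Subtype.val '' (Subtype.val ⁻¹' K : Set F) : Set X) = K := by
      rw [Subtype.image_preimage_coe, inter_eq_right.2 hKF]
    exact (Homeomorph.setCongr h2.symm).trans (e1.symm.trans (e.trans e2))

variable [CompactSpace X] [T2Space X]

theorem mem_isol_of_discrete {D : Set X} (hD : DiscreteTopology D) {d : X} (hd : d ∈ D) :
    d ∈ isol (closure D) := by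
  refine ⟨subset_closure hd, ?_⟩
  obtain ⟨O, hO, hOD⟩ := discreteTopology_subtype_iff'.1 hD d hd
  refine ⟨O, hO, ?_⟩
  have hdO : d ∈ O := (hOD.symm.subset (mem_singleton d)).1
  apply subset_antisymm
  · rintro y ⟨hy1, hy2⟩
    by_contra hne
    obtain ⟨z, hz1, hz2⟩ := mem_closure_iff.1 hy2 (O \ {d}) (hO.sdiff isClosed_singleton)
      ⟨hy1, hne⟩
    exact hz1.2 (hOD.subset ⟨hz1.1, hz2⟩)
  · rintro _ rfl
    exact ⟨hdO, subset_closure hd⟩

theorem spread_rel (hX : HereditarilyCO X) {F : Set X} (hF : IsClosed F) (hI : (isol F).Countable)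
    (D : Set X) (hDF : D ⊆ F) (hD : DiscreteTopology D) : D.Countable := by
  by_contra hDu
  have hDi : D.Infinite := fun h => hDu h.countable
  obtain ⟨U, hUF, -, ⟨V, hV, hUV⟩, ⟨e⟩⟩ := sets hX hF (hDi.mono hDF) isClosed_closure
    (closure_minimal hDF hF)
  let g : D → X := fun d => (e ⟨d.1, subset_closure d.2⟩ : X)
  have hg : Function.Injective g := by
    intro a b hab
    have h1 := e.injective (Subtype.ext hab)
    exact Subtype.ext (Subtype.mk.inj h1)
  have hgI : ∀ d, g d ∈ isol F := by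
    intro d
    refine ⟨hUF (e _).2, ?_⟩
    obtain ⟨-, O, hO, hOD⟩ := mem_isol_of_discrete hD d.2
    have h1 : IsOpen (Subtype.val ⁻¹' O : Set (closure D)) := hO.preimage continuous_subtype_val
    have h2 : IsOpen (e.symm ⁻¹' (Subtype.val ⁻¹' O : Set (closure D))) :=
      h1.preimage e.symm.continuous
    obtain ⟨V', hV', hVe⟩ := isOpen_induced_iff.1 h2
    refine ⟨V' ∩ V, hV'.inter hV, ?_⟩
    have h3 : ∀ u : U, u.1 ∈ V' ↔ (e.symm u : X) ∈ O := by
      intro u
      have h4 : u ∈ (Subtype.val ⁻¹' V' : Set U) ↔ u ∈ e.symm ⁻¹' (Subtype.val ⁻¹' O) := by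
        rw [hVe]
      exact h4
    apply subset_antisymm
    · rintro y ⟨⟨hy1, hy2⟩, hy3⟩
      have hyU : y ∈ U := hUV ▸ ⟨hy3, hy2⟩
      have h5 := (h3 ⟨y, hyU⟩).1 hy1
      have h6 : (e.symm ⟨y, hyU⟩ : X) = d.1 := hOD.subset ⟨h5, (e.symm ⟨y, hyU⟩).2⟩
      have h7 : e.symm ⟨y, hyU⟩ = ⟨d.1, subset_closure d.2⟩ := Subtype.ext h6
      have h8 : (⟨y, hyU⟩ : U) = e ⟨d.1, subset_closure d.2⟩ := by
        rw [← h7, e.apply_symm_apply]
      exact congrArg Subtype.val h8
    · rintro _ rfl
      have hdO : d.1 ∈ O := (hOD.symm.subset (mem_singleton d.1)).1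
      have h5 : (e ⟨d.1, subset_closure d.2⟩ : X) ∈ V' := by
        refine (h3 _).2 ?_
        rw [e.symm_apply_apply]
        exact hdO
      have h6 : (e ⟨d.1, subset_closure d.2⟩ : X) ∈ F ∩ V := hUV ▸ (e _).2
      exact ⟨⟨h5, h6.2⟩, h6.1⟩
  apply hDu
  have h1 : (range g).Countable := hI.mono (by rintro _ ⟨d, rfl⟩; exact hgI d)
  have h2 : Countable (range g) := h1.to_subtype
  exact (Equiv.ofInjective g hg).countable_iff.2 h2

theorem exists_isol (hX : HereditarilyCO X) {K : Set X} (hK : IsClosed K) (hne : K.Nonempty) :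
    (isol K).Nonempty := by
  obtain ⟨x, hx⟩ := hne
  by_cases hfin : K.Finite
  · refine ⟨x, hx, (K \ {x})ᶜ, (hfin.diff).isClosed.isOpen_compl, ?_⟩
    ext y
    simp only [mem_inter_iff, mem_compl_iff, mem_diff, mem_singleton_iff, not_and, not_not]
    constructor
    · rintro ⟨h1, h2⟩
      exact h1 h2
    · rintro rfl
      exact ⟨fun _ => rfl, hx⟩
  · obtain ⟨U, hUK, -, ⟨V, hV, hUV⟩, ⟨e⟩⟩ := sets hX hK hfin (isClosed_singleton (x := x))
      (singleton_subset_iff.2 hx)
    let u : U := e ⟨x, rfl⟩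
    refine ⟨u.1, hUK u.2, V, hV, ?_⟩
    rw [inter_comm, ← hUV]
    apply subset_antisymm
    · intro y hy
      have h1 : e.symm ⟨y, hy⟩ = ⟨x, rfl⟩ := Subsingleton.elim _ _
      have h2 : (⟨y, hy⟩ : U) = u := by
        rw [← e.apply_symm_apply ⟨y, hy⟩, h1]
      exact congrArg Subtype.val h2
    · rintro _ rfl
      exact u.2

/-- **MA.** A closed set with countably many isolated points is countable. -/
theorem countable_closed (hMA : MartinAxiomAlephOne) (hX : HereditarilyCO X) {F : Set X}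
    (hF : IsClosed F) (hI : (isol F).Countable) : F.Countable := by
  by_contra hFu
  let K : Set X := {x | x ∈ F ∧ ∀ V : Set X, IsOpen V → x ∈ V → ¬ (V ∩ F).Countable}
  have hKc : IsClosed K := by
    rw [← isOpen_compl_iff, isOpen_iff_forall_mem_open]
    intro x hx
    by_cases hxF : x ∈ F
    · have h1 : ∃ V : Set X, IsOpen V ∧ x ∈ V ∧ (V ∩ F).Countable := by
        by_contra hcon
        push Not at hcon
        exact hx ⟨hxF, hcon⟩
      obtain ⟨V, hV, hxV, hVc⟩ := h1
      exact ⟨V, fun y hy hyK => hyK.2 V hV hy hVc, hV, hxV⟩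
    · exact ⟨Fᶜ, fun y hy hyK => hy hyK.1, hF.isOpen_compl, hxF⟩
  have hKne : K.Nonempty := by
    by_contra hcon
    rw [not_nonempty_iff_eq_empty] at hcon
    have h0 : (F ∩ F).Countable := by
      refine hF.isCompact.induction_on (p := fun S => (S ∩ F).Countable) (by simp)
        (fun s t hst ht => ht.mono (inter_subset_inter_left _ hst))
        (fun s t hs ht => by rw [union_inter_distrib_right]; exact hs.union ht) ?_
      intro x hx
      have h1 : ∃ V : Set X, IsOpen V ∧ x ∈ V ∧ (V ∩ F).Countable := by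
        by_contra h
        push Not at h
        have h2 : x ∈ K := ⟨hx, h⟩
        rw [hcon] at h2
        exact h2
      obtain ⟨V, hV, hxV, hVc⟩ := h1
      exact ⟨V, mem_nhdsWithin_of_mem_nhds (hV.mem_nhds hxV), hVc⟩
    exact hFu (Set.Countable.mono (show F ⊆ F ∩ F from fun x hx => ⟨hx, hx⟩) h0)
  obtain ⟨p, hpK, V, hV, hVK⟩ := exists_isol hX hKc hKne
  have hpV : p ∈ V := (hVK.symm.subset (mem_singleton p)).1
  obtain ⟨N, hN, hNc, hNV⟩ := exists_mem_nhds_isClosed_subset (hV.mem_nhds hpV)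
  obtain ⟨G, hGN, hG, hpG⟩ := mem_nhds_iff.1 hN
  have hF'c : IsClosed (F ∩ N) := hF.inter hNc
  have hF'u : ¬ (F ∩ N).Countable := fun h =>
    hpK.2 G hG hpG (Set.Countable.mono (show G ∩ F ⊆ F ∩ N from
      fun x hx => ⟨hx.2, hGN hx.1⟩) h)
  have : CompactSpace ↥(F ∩ N) := isCompact_iff_compactSpace.1 hF'c.isCompact
  have hpF : p ∈ F ∩ N := ⟨hpK.1, hGN hpG⟩
  apply hF'u
  have h1 := countable_of_point (X := ↥(F ∩ N)) hMA (p := ⟨p, hpF⟩) (by
      rintro ⟨y, hy⟩ hyp
      have hyK : y ∉ K := by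
        intro h
        exact hyp (Subtype.ext (hVK.subset ⟨hNV hy.2, h⟩))
      have h1 : ∃ V : Set X, IsOpen V ∧ y ∈ V ∧ (V ∩ F).Countable := by
        by_contra h
        push Not at h
        exact hyK ⟨hy.1, h⟩
      obtain ⟨V', hV', hyV', hc'⟩ := h1
      refine ⟨Subtype.val ⁻¹' V', hV'.preimage continuous_subtype_val, hyV', ?_⟩
      refine countable_of_injective_of_countable_image (f := Subtype.val)
        Subtype.val_injective.injOn (hc'.mono ?_)
      rintro _ ⟨z, hz, rfl⟩
      exact ⟨hz, z.2.1⟩) (by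
      intro D hD
      have e : D ≃ₜ (Subtype.val '' D : Set X) := IsEmbedding.subtypeVal.homeomorphImage D
      have h2 : DiscreteTopology (Subtype.val '' D : Set X) := e.symm.isEmbedding.discreteTopology
      have h3 := spread_rel hX hF hI (Subtype.val '' D) (by
        rintro _ ⟨z, _, rfl⟩
        exact z.2.1) h2
      exact countable_of_injective_of_countable_image Subtype.val_injective.injOn h3)
  exact Set.countable_coe_iff.1 (Set.countable_univ_iff.1 h1)

/-- **MA.** Closures of countable sets are countable. -/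
theorem countable_closure (hMA : MartinAxiomAlephOne) (hX : HereditarilyCO X) {N : Set X}
    (hN : N.Countable) : (closure N).Countable := by
  refine countable_closed hMA hX isClosed_closure (hN.mono ?_)
  rintro x ⟨hx, V, hV, hVN⟩
  have hxV : x ∈ V := (hVN.symm.subset (mem_singleton x)).1
  obtain ⟨y, hy1, hy2⟩ := mem_closure_iff.1 hx V hV hxV
  have h1 : y = x := hVN.subset ⟨hy1, subset_closure hy2⟩
  exact h1 ▸ hy2

section point

variable {p : X} (hloc : ∀ y, y ≠ p → ∃ O : Set X, IsOpen O ∧ y ∈ O ∧ O.Countable)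
include hloc

/-- A closed copy of a large closed set contains `p`. -/
theorem mem_copy {U : Set X} (hU : IsClosed U) (hUu : ¬ U.Countable) : p ∈ U := by
  by_contra h
  exact hUu (countable_of_closed hloc hU h)

theorem card_le (hMA : MartinAxiomAlephOne) (hX : HereditarilyCO X)
    (hXu : ¬ (univ : Set X).Countable) : #X ≤ ℵ₁ := by
  classical
  obtain ⟨W, _, _, hW, hc, hu⟩ := exists_omega_one
  obtain ⟨D, hDd, hDu⟩ : ∃ D : Set X, DiscreteTopology D ∧ ¬ D.Countable := by
    by_contra hcon
    push Not at hcon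
    exact hXu (countable_of_point hMA hloc hcon)
  have h1 : ℵ₁ ≤ #D := by
    rw [← succ_aleph0, Order.succ_le_iff, ← not_le, le_aleph0_iff_set_countable]
    exact hDu
  obtain ⟨D₁, hD₁⟩ := le_mk_iff_exists_subset.1 h1
  obtain ⟨d⟩ := Cardinal.eq.1 (hW.trans hD₁.2.symm)
  have hD₁u : ¬ D₁.Countable := by
    intro h
    rw [← le_aleph0_iff_set_countable, hD₁.2] at h
    exact absurd h (not_le.2 aleph0_lt_aleph_one)
  have hK : closure D₁ ⊆ insert p (⋃ α : W, closure ((fun i => (d i : X)) '' Iio α)) := by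
    intro y hy
    by_cases hyp : y = p
    · exact Or.inl hyp
    · right
      obtain ⟨O, hO, hyO, hOc⟩ := hloc y hyp
      have h2 : y ∈ closure (O ∩ D₁) := by
        rw [mem_closure_iff]
        intro G hG hyG
        obtain ⟨z, hz1, hz2⟩ := mem_closure_iff.1 hy (G ∩ O) (hG.inter hO) ⟨hyG, hyO⟩
        exact ⟨z, hz1.1, hz1.2, hz2⟩
      have h3 : {i : W | (d i : X) ∈ O}.Countable := by
        refine countable_of_injective_of_countable_image (f := fun i => (d i : X))
          (fun i _ j _ h => d.injective (Subtype.ext h)) (hOc.mono ?_)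
        rintro _ ⟨i, hi, rfl⟩
        exact hi
      obtain ⟨b, hb⟩ := exists_bound hc hu h3
      refine mem_iUnion.2 ⟨b, closure_mono ?_ h2⟩
      rintro z ⟨hz1, hz2⟩
      refine ⟨d.symm ⟨z, hz2⟩, hb _ ?_, by simp⟩
      simp only [mem_setOf_eq, Equiv.apply_symm_apply]
      exact hz1
  have hKc : #(closure D₁) ≤ ℵ₁ := by
    refine (mk_le_mk_of_subset hK).trans ?_
    refine (mk_insert_le).trans ?_
    have h2 : #(⋃ α : W, closure ((fun i => (d i : X)) '' Iio α)) ≤ ℵ₁ := by
      refine (mk_iUnion_le_sum_mk).trans ?_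
      refine (sum_le_sum _ (fun _ => ℵ₀) fun α => ?_).trans ?_
      · rw [le_aleph0_iff_set_countable]
        exact countable_closure hMA hX ((hc α).image _)
      · rw [sum_const, lift_id, lift_id, hW]
        exact (mul_le_max_of_aleph0_le_left (aleph0_le_aleph 1)).trans
          (max_le le_rfl (aleph0_le_aleph 1))
    exact (add_le_add h2 (one_le_aleph0.trans (aleph0_le_aleph 1))).trans
      (add_eq_self (aleph0_le_aleph 1)).le
  have hinf : (univ : Set X).Infinite := fun h => hXu h.countable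
  obtain ⟨U, -, hUc, ⟨V, hV, hUV⟩, ⟨e⟩⟩ := sets hX isClosed_univ hinf
    (isClosed_closure (s := D₁)) (subset_univ _)
  rw [univ_inter] at hUV
  have hUe : #U = #(closure D₁) := mk_congr e.symm.toEquiv
  have hUu : ¬ U.Countable := by
    intro h
    apply hD₁u
    rw [← le_aleph0_iff_set_countable, hUe, le_aleph0_iff_set_countable] at h
    exact h.mono subset_closure
  have hpU := mem_copy hloc hUc hUu
  have hUo : IsOpen U := hUV ▸ hV
  have h2 : (Uᶜ : Set X).Countable :=
    countable_of_closed hloc hUo.isClosed_compl (fun h => h hpU)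
  calc #X = #(univ : Set X) := mk_univ.symm
    _ = #(U ∪ Uᶜ : Set X) := by rw [union_compl_self]
    _ ≤ #U + #(Uᶜ : Set X) := mk_union_le _ _
    _ ≤ ℵ₁ + ℵ₁ := add_le_add (hUe.le.trans hKc)
        ((le_aleph0_iff_set_countable.2 h2).trans (aleph0_le_aleph 1))
    _ = ℵ₁ := add_eq_self (aleph0_le_aleph 1)

/-- Countable tightness at `p` fails. -/
theorem not_tight (hMA : MartinAxiomAlephOne) (hX : HereditarilyCO X)
    (hXu : ¬ (univ : Set X).Countable) :
    ¬ ∀ E : Set X, (∀ C ⊆ E, C.Countable → closure C ⊆ E) → p ∈ closure E → p ∈ E := by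
  intro hCT
  have hD : ¬ ({p}ᶜ : Set X).Countable := by
    intro h
    apply hXu
    rw [← union_compl_self ({p} : Set X)]
    exact (countable_singleton p).union h
  obtain ⟨S, hSp, hSu, hS⟩ := exists_closed_discrete hMA hloc hCT (card_le hloc hMA hX hXu) _ hD
  have hcl : closure S ⊆ insert p S := by
    intro y hy
    by_contra hyn
    rw [mem_insert_iff, not_or] at hyn
    obtain ⟨O, hO, hyO, hfin⟩ := hS y hyn.1
    obtain ⟨z, hz1, hz2⟩ := mem_closure_iff.1 hy (O \ (O ∩ S)) (hO.sdiff hfin.isClosed)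
      ⟨hyO, fun h => hyn.2 h.2⟩
    exact hz1.2 ⟨hz1.1, hz2⟩
  have hfin : ∀ C : Set X, IsClosed C → p ∉ C → (C ∩ S).Finite := by
    intro C hC hpC
    refine (hC.isCompact.induction_on (p := fun T => (T ∩ S).Finite) (by simp)
      (fun s t hst ht => ht.subset (inter_subset_inter_left _ hst))
      (fun s t hs ht => by rw [union_inter_distrib_right]; exact hs.union ht) ?_)
    intro x hx
    obtain ⟨O, hO, hxO, hf⟩ := hS x (fun h => hpC (h ▸ hx))
    exact ⟨O, mem_nhdsWithin_of_mem_nhds (hO.mem_nhds hxO), hf⟩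
  have hSi : S.Infinite := fun h => hSu h.countable
  have hFi : (closure S).Infinite := hSi.mono subset_closure
  let N : Set X := range fun n : ℕ => (hSi.natEmbedding S n : X)
  have hNS : N ⊆ S := by
    rintro _ ⟨n, rfl⟩
    exact (hSi.natEmbedding S n).2
  have hNi : N.Infinite := infinite_range_of_injective fun a b h =>
    (hSi.natEmbedding S).injective (Subtype.ext h)
  have hKc := countable_closure hMA hX (countable_range fun n : ℕ => (hSi.natEmbedding S n : X))
  obtain ⟨U, hUF, hUc, ⟨V, hV, hUV⟩, ⟨e⟩⟩ := sets hX (isClosed_closure (s := S)) hFi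
    (isClosed_closure (s := N)) (closure_mono hNS)
  have hUcount : U.Countable := by
    rw [← Set.countable_coe_iff]
    have : Countable (closure N) := hKc.to_subtype
    exact e.toEquiv.symm.countable_iff.2 this
  have hUinf : U.Infinite := by
    intro h
    have h1 : Finite U := h.to_subtype
    have h2 : Finite (closure N) := Finite.of_equiv _ e.symm.toEquiv
    exact (hNi.mono subset_closure) (Set.toFinite _)
  by_cases hpU : p ∈ U
  · have h1 : IsClosed (closure S \ V) := isClosed_closure.sdiff hV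
    have h2 : p ∉ closure S \ V := fun h => h.2 (hUV ▸ hpU : p ∈ closure S ∩ V).2
    have h3 := hfin _ h1 h2
    apply hSu
    refine (hUcount.union h3.countable).mono fun x hx => ?_
    by_cases hxV : x ∈ V
    · left
      rw [hUV]
      exact ⟨subset_closure hx, hxV⟩
    · exact Or.inr ⟨⟨subset_closure hx, hxV⟩, hx⟩
  · apply hUinf
    refine (hfin U hUc hpU).subset fun x hx => ⟨hx, ?_⟩
    rcases hcl (hUF hx) with h | h
    · exact absurd (h ▸ hx) hpU
    · exact h

/-- **MA.** The point `p` is not in the closure of a countable set of other points. -/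
theorem not_mem_closure (hMA : MartinAxiomAlephOne) (hX : HereditarilyCO X)
    (hXu : ¬ (univ : Set X).Countable) (N : Set X) (hN : N.Countable) (hpN : p ∉ N) :
    p ∉ closure N := by
  have h0 := not_tight hloc hMA hX hXu
  push Not at h0
  obtain ⟨E, hE, hpE, hpE'⟩ := h0
  have hEu : ¬ E.Countable := fun h => hpE' (hE E Subset.rfl h hpE)
  have hcl : closure E ⊆ insert p E := by
    intro y hy
    by_cases hyp : y = p
    · exact Or.inl hyp
    · right
      obtain ⟨O, hO, hyO, hOc⟩ := hloc y hyp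
      refine hE (O ∩ E) inter_subset_right (hOc.mono inter_subset_left) ?_
      rw [mem_closure_iff]
      intro G hG hyG
      obtain ⟨z, hz1, hz2⟩ := mem_closure_iff.1 hy (G ∩ O) (hG.inter hO) ⟨hyG, hyO⟩
      exact ⟨z, hz1.1, hz1.2, hz2⟩
  have hinf : (univ : Set X).Infinite := fun h => hpE' (hE E Subset.rfl
    ((h.subset (subset_univ E)).countable) hpE)
  obtain ⟨U, -, hUc, ⟨V, hV, hUV⟩, ⟨e⟩⟩ := sets hX isClosed_univ hinf
    (isClosed_closure (s := E)) (subset_univ _)
  rw [univ_inter] at hUV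
  have hUo : IsOpen U := hUV ▸ hV
  have hUu : ¬ U.Countable := by
    intro h
    apply hEu
    have h1 : Countable U := h.to_subtype
    have h2 : Countable (closure E) := e.toEquiv.countable_iff.2 h1
    exact (Set.countable_coe_iff.1 h2).mono subset_closure
  have hpU := mem_copy hloc hUc hUu
  have hep : (e ⟨p, hpE⟩ : X) = p := by
    by_contra hne
    obtain ⟨O, hO, hzO, hOc⟩ := hloc _ hne
    have h1 : IsOpen (e ⁻¹' (Subtype.val ⁻¹' O)) :=
      (hO.preimage continuous_subtype_val).preimage e.continuous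
    obtain ⟨G', hG', hGe⟩ := isOpen_induced_iff.1 h1
    have h2 : (closure E ∩ G').Countable := by
      have h3 : (e ⁻¹' (Subtype.val ⁻¹' O)).Countable := by
        refine countable_of_injective_of_countable_image (f := fun x => (e x : X))
          (fun a _ b _ h => e.injective (Subtype.ext h)) (hOc.mono ?_)
        rintro _ ⟨x, hx, rfl⟩
        exact hx
      refine (h3.image Subtype.val).mono ?_
      rintro x ⟨hx1, hx2⟩
      refine ⟨⟨x, hx1⟩, ?_, rfl⟩
      rw [← hGe]
      exact hx2
    have hpG : p ∈ G' := by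
      have h3 : (⟨p, hpE⟩ : closure E) ∈ (Subtype.val ⁻¹' G' : Set (closure E)) := by
        rw [hGe]
        exact hzO
      exact h3
    have h4 : (closure E \ G').Countable :=
      countable_of_closed hloc (isClosed_closure.sdiff hG') (fun h => h.2 hpG)
    apply hEu
    refine (h2.union h4).mono fun x hx => ?_
    by_cases hxG : x ∈ G'
    · exact Or.inl ⟨subset_closure hx, hxG⟩
    · exact Or.inr ⟨subset_closure hx, hxG⟩
  intro hp
  have h1 : p ∈ closure (U ∩ N) := by
    rw [mem_closure_iff]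
    intro G hG hpG
    obtain ⟨z, hz1, hz2⟩ := mem_closure_iff.1 hp (G ∩ U) (hG.inter hUo) ⟨hpG, hpU⟩
    exact ⟨z, hz1.1, hz1.2, hz2⟩
  have h2 : (⟨p, hpU⟩ : U) ∈ closure (Subtype.val ⁻¹' N : Set U) := by
    rw [closure_subtype, Subtype.image_preimage_coe]
    exact h1
  have h3 : (⟨p, hpE⟩ : closure E) ∈ closure (e ⁻¹' (Subtype.val ⁻¹' N)) := by
    rw [← e.preimage_closure]
    have h4 : e ⟨p, hpE⟩ = ⟨p, hpU⟩ := Subtype.ext hep
    rw [mem_preimage, h4]
    exact h2
  rw [closure_subtype] at h3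
  refine hpE' (hE _ ?_ ?_ h3)
  · rintro _ ⟨x, hx, rfl⟩
    rcases hcl x.2 with h | h
    · exfalso
      apply hpN
      have h5 : x = ⟨p, hpE⟩ := Subtype.ext h
      have h6 : (e x : X) ∈ N := hx
      rw [h5, hep] at h6
      exact h6
    · exact h
  · have h5 : (e ⁻¹' (Subtype.val ⁻¹' N)).Countable := by
      refine countable_of_injective_of_countable_image (f := fun x => (e x : X))
        (fun a _ b _ h => e.injective (Subtype.ext h)) (hN.mono ?_)
      rintro _ ⟨x, hx, rfl⟩
      exact hx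
    exact h5.image _

end point

end Pool.Agent.U19.HCO
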