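import Mathlib
import Pool.Agent.U19.HCO.Hco

/-!
# Hereditarily c.o. spaces under Martin's axiom: the general case
-/

set_option autoImplicit false

open Set Topology Filter Cardinal
open Pool.Agent.Results.MP_f6eb07_gt.PowersMA

namespace Pool.Agent.U19.HCO

theorem IsCO.of_homeo {A B : Type} [TopologicalSpace A] [TopologicalSpace B] (h : IsCO A)
    (e : A ≃ₜ B) : IsCO B := by
  refine ⟨e.toEquiv.infinite_iff.1 h.1, fun F hF => ?_⟩
  obtain ⟨U, hU, ⟨f⟩⟩ := h.2 (e ⁻¹' F) (hF.preimage e.continuous)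
  refine ⟨e '' U, ⟨e.isClosedMap _ hU.1, e.isOpenMap _ hU.2⟩, ⟨?_⟩⟩
  have h1 : e '' (e ⁻¹' F) = F := e.image_preimage F
  exact (Homeomorph.setCongr h1.symm).trans ((e.image _).symm.trans (f.trans (e.image U)))

variable {X : Type} [TopologicalSpace X]

theorem HereditarilyCO.closed (hX : HereditarilyCO X) {N : Set X} (hN : IsClosed N) :
    HereditarilyCO N := by
  intro F hF hFi
  have e : F ≃ₜ (Subtype.val '' F : Set X) := IsEmbedding.subtypeVal.homeomorphImage F
  exact (hX (Subtype.val '' F) (hN.isClosedEmbedding_subtypeVal.isClosedMap _ hF)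
    (e.toEquiv.infinite_iff.1 hFi)).of_homeo e.symm

variable [CompactSpace X] [T2Space X]

/-- A point with a closed neighbourhood in which it is the only point without countable
neighbourhoods. -/
theorem exists_point (hX : HereditarilyCO X) (hXu : ¬ (univ : Set X).Countable) :
    ∃ (p : X) (N : Set X), N ∈ 𝓝 p ∧ IsClosed N ∧ (∀ M ∈ 𝓝 p, ¬ M.Countable) ∧
      ∀ y ∈ N, y ≠ p → ∃ O : Set X, IsOpen O ∧ y ∈ O ∧ O.Countable := by
  let K : Set X := {x | ∀ V : Set X, IsOpen V → x ∈ V → ¬ V.Countable}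
  have hnK : ∀ x, x ∉ K → ∃ V : Set X, IsOpen V ∧ x ∈ V ∧ V.Countable := by
    intro x hx
    by_contra hcon
    push Not at hcon
    exact hx hcon
  have hKc : IsClosed K := by
    rw [← isOpen_compl_iff, isOpen_iff_forall_mem_open]
    intro x hx
    obtain ⟨V, hV, hxV, hVc⟩ := hnK x hx
    exact ⟨V, fun y hy hyK => hyK V hV hy hVc, hV, hxV⟩
  have hKne : K.Nonempty := by
    by_contra hcon
    rw [not_nonempty_iff_eq_empty] at hcon
    apply hXu
    refine isCompact_univ.induction_on (p := fun S => S.Countable) countable_empty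
      (fun s t hst ht => ht.mono hst) (fun s t hs ht => hs.union ht) ?_
    intro x _
    obtain ⟨V, hV, hxV, hVc⟩ := hnK x (by rw [hcon]; exact notMem_empty x)
    exact ⟨V, mem_nhdsWithin_of_mem_nhds (hV.mem_nhds hxV), hVc⟩
  obtain ⟨p, hpK, V, hV, hVK⟩ := exists_isol hX hKc hKne
  have hpV : p ∈ V := (hVK.symm.subset (mem_singleton p)).1
  obtain ⟨N, hN, hNc, hNV⟩ := exists_mem_nhds_isClosed_subset (hV.mem_nhds hpV)
  refine ⟨p, N, hN, hNc, ?_, ?_⟩
  · intro M hM hMc
    obtain ⟨G, hGM, hG, hpG⟩ := mem_nhds_iff.1 hM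
    exact hpK G hG hpG (hMc.mono hGM)
  · intro y hy hyp
    exact hnK y fun h => hyp (hVK.subset ⟨hNV hy, h⟩)

/-- The local hypothesis in the subspace `N`. -/
theorem hloc_sub {N : Set X} {p : X} (hpN : p ∈ N)
    (h : ∀ y ∈ N, y ≠ p → ∃ O : Set X, IsOpen O ∧ y ∈ O ∧ O.Countable) :
    ∀ y : N, y ≠ ⟨p, hpN⟩ → ∃ O : Set N, IsOpen O ∧ y ∈ O ∧ O.Countable := by
  rintro ⟨y, hy⟩ hyp
  obtain ⟨O, h1, h2, h3⟩ := h y hy (fun h => hyp (Subtype.ext h))
  refine ⟨Subtype.val ⁻¹' O, h1.preimage continuous_subtype_val, h2, ?_⟩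
  exact h3.preimage Subtype.val_injective

/-- **MA.** The structure of an uncountable hereditarily c.o. space at some point. -/
theorem structure_point (hMA : MartinAxiomAlephOne) (hX : HereditarilyCO X)
    (hXu : ¬ (univ : Set X).Countable) :
    ∃ (p : X) (N : Set X), N ∈ 𝓝 p ∧ IsClosed N ∧ #N = ℵ₁ ∧ (∀ M ∈ 𝓝 p, ¬ M.Countable) ∧
      (∀ y ∈ N, y ≠ p → ∃ O : Set X, IsOpen O ∧ y ∈ O ∧ O.Countable) ∧
      ∀ C : Set X, C.Countable → p ∉ C → p ∉ closure C := by
  obtain ⟨p, N, hN, hNc, hpu, hloc⟩ := exists_point hX hXu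
  have hpN : p ∈ N := mem_of_mem_nhds hN
  have : CompactSpace N := isCompact_iff_compactSpace.1 hNc.isCompact
  have hNu : ¬ (univ : Set N).Countable := by
    intro h
    exact hpu N hN (Set.countable_coe_iff.1 (Set.countable_univ_iff.1 h))
  have hNCO := hX.closed hNc
  have hloc' := hloc_sub hpN hloc
  refine ⟨p, N, hN, hNc, le_antisymm (card_le hloc' hMA hNCO hNu) ?_, hpu, hloc, ?_⟩
  · rw [← succ_aleph0, Order.succ_le_iff, ← not_le, le_aleph0_iff_set_countable]
    exact hpu N hN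
  · intro C hC hpC hp
    have h1 : p ∈ closure (N ∩ C) := by
      rw [mem_closure_iff_nhds]
      intro G hG
      obtain ⟨z, hz1, hz2⟩ := mem_closure_iff_nhds.1 hp (G ∩ N) (inter_mem hG hN)
      exact ⟨z, hz1.1, hz1.2, hz2⟩
    refine not_mem_closure hloc' hMA hNCO hNu (Subtype.val ⁻¹' C)
      (hC.preimage Subtype.val_injective) (fun h => hpC h) ?_
    rw [closure_subtype, Subtype.image_preimage_coe]
    exact h1

/-- **MA.** Countably tight hereditarily c.o. spaces are countable. -/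
theorem countable_of_tight (hMA : MartinAxiomAlephOne) (hX : HereditarilyCO X)
    (ht : ∀ (A : Set X) (x : X), x ∈ closure A → ∃ C ⊆ A, C.Countable ∧ x ∈ closure C) :
    Countable X := by
  rw [← Set.countable_univ_iff]
  by_contra hXu
  obtain ⟨p, N, -, -, -, hpu, -, hp⟩ := structure_point hMA hX hXu
  have h1 : p ∈ closure ({p}ᶜ : Set X) := by
    rw [mem_closure_iff_nhds]
    intro G hG
    by_contra hcon
    refine hpu G hG ((countable_singleton p).mono fun y hy => ?_)
    by_contra hne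
    exact hcon ⟨y, hy, hne⟩
  obtain ⟨C, hC, hCc, hpC⟩ := ht _ p h1
  exact hp C hCc (fun h => hC h rfl) hpC

end Pool.Agent.U19.HCO
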